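import Pool.Agent.Helper40.PR.Defs2
import Pool.Agent.Helper8.PR.TK1
import Pool.Agent.Helper73.PR.TK8
import Pool.Agent.Helper54.PR.TK5

/-!
# PR-AB2: the claim for the products `TS`, `STS`
-/

namespace PR

open ContinuousLinearMap Polynomial

section ab

variable {X : Type*} [NormedAddCommGroup X] [NormedSpace ℂ X]

namespace AB2

/-- functionals separate points -/
theorem ext_dual {u v : X} (h : ∀ g : X →L[ℂ] ℂ, g u = g v) : u = v := by
  by_contra hne
  have h1 : u - v ≠ 0 := sub_ne_zero.2 hne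
  obtain ⟨g, -, hg⟩ := exists_dual_vector ℂ (u - v) (norm_ne_zero_iff.2 h1)
  rw [map_sub, h g, sub_self] at hg
  have h2 : ‖u - v‖ = 0 := by
    have := congrArg norm hg
    simpa using this.symm
  exact h1 (norm_eq_zero.1 h2)

/-- the affine polynomial `t ↦ a + t b` -/
noncomputable def lin (a b : ℂ) : ℂ[X] := C a + Polynomial.X * C b

theorem lin_eval (a b t : ℂ) : (lin a b).eval t = a + t * b := by
  simp only [lin, eval_add, eval_mul, eval_C, eval_X]

/-- pointwise form at a vector with `A y`, `B y` independent -/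
theorem point {A B : X →L[ℂ] X} {C' : ℂ → (X →L[ℂ] X)}
    (h : ∀ (y : X) (g : X →L[ℂ] ℂ), PhaseFam (g (A y)) (g (B y)) (fun s => g (C' s y)))
    {y : X} (hy : LinearIndependent ℂ ![A y, B y]) :
    ∃ k : ℂ → ℂ, (∀ s s', ‖k s - k s'‖ = ‖s - s'‖) ∧
      ∀ s, ∃ p : ℂ, ‖p‖ = 1 ∧ C' s y = p • (A y + k s • B y) := by
  have hUW : ∀ α β : ℂ, ∃ g : X →L[ℂ] ℂ,
      ((ContinuousLinearMap.apply ℂ ℂ (A y) : (X →L[ℂ] ℂ) →L[ℂ] ℂ) : (X →L[ℂ] ℂ) →ₗ[ℂ] ℂ) g = α ∧
      ((ContinuousLinearMap.apply ℂ ℂ (B y) : (X →L[ℂ] ℂ) →L[ℂ] ℂ) : (X →L[ℂ] ℂ) →ₗ[ℂ] ℂ) g = β := by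
    intro α β
    obtain ⟨g, hg⟩ := exists_dual_fin hy ![α, β]
    exact ⟨g, by simpa using hg 0, by simpa using hg 1⟩
  obtain ⟨κ, hκ, hk⟩ := wigner_two
    ((ContinuousLinearMap.apply ℂ ℂ (A y) : (X →L[ℂ] ℂ) →L[ℂ] ℂ) : (X →L[ℂ] ℂ) →ₗ[ℂ] ℂ)
    ((ContinuousLinearMap.apply ℂ ℂ (B y) : (X →L[ℂ] ℂ) →L[ℂ] ℂ) : (X →L[ℂ] ℂ) →ₗ[ℂ] ℂ)
    (fun s => ((ContinuousLinearMap.apply ℂ ℂ (C' s y) : (X →L[ℂ] ℂ) →L[ℂ] ℂ) :
      (X →L[ℂ] ℂ) →ₗ[ℂ] ℂ)) hUW (fun g => h y g)
  rcases hk with hk | hk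
  · refine ⟨fun s => κ * s, fun s s' => ?_, fun s => ?_⟩
    · rw [← mul_sub, norm_mul, hκ, one_mul]
    · obtain ⟨p, hp, hps⟩ := hk s
      refine ⟨p, hp, ext_dual fun g => ?_⟩
      have := LinearMap.congr_fun hps g
      simpa using this
  · refine ⟨fun s => κ * (starRingEnd ℂ) s, fun s s' => ?_, fun s => ?_⟩
    · rw [← mul_sub, norm_mul, hκ, one_mul, ← map_sub, RCLike.norm_conj]
    · obtain ⟨p, hp, hps⟩ := hk s
      refine ⟨p, hp, ext_dual fun g => ?_⟩
      have := LinearMap.congr_fun hps g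
      simpa using this

end AB2

open AB2 in
/-- AB2. -/
theorem ab_claim {A B : X →L[ℂ] X} {C' : ℂ → (X →L[ℂ] X)}
    (h : ∀ (y : X) (g : X →L[ℂ] ℂ), PhaseFam (g (A y)) (g (B y)) (fun s => g (C' s y)))
    (h0 : ∃ y, LinearIndependent ℂ ![A y, B y]) :
    ∃ k : ℂ → ℂ, (∀ s s', ‖k s - k s'‖ = ‖s - s'‖) ∧
      ∀ s, ∃ p : ℂ, ‖p‖ = 1 ∧ C' s = p • (A + k s • B) := by
  obtain ⟨y0, hy0⟩ := h0
  obtain ⟨k, hk, hks⟩ := point h hy0
  obtain ⟨h1, hh1⟩ := exists_dual_fin hy0 ![1, 0]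
  obtain ⟨h2, hh2⟩ := exists_dual_fin hy0 ![0, 1]
  have a1 : h1 (A y0) = 1 := by simpa using hh1 0
  have b1 : h1 (B y0) = 0 := by simpa using hh1 1
  have a2 : h2 (A y0) = 0 := by simpa using hh2 0
  have b2 : h2 (B y0) = 1 := by simpa using hh2 1
  refine ⟨k, hk, fun s => ?_⟩
  obtain ⟨p, hp, hps⟩ := hks s
  refine ⟨p, hp, ContinuousLinearMap.ext fun z => ?_⟩
  -- polynomials
  have key1 : ∀ t : ℂ, h1 (C' s (y0 + t • z)) * h2 (B (y0 + t • z)) -
      h2 (C' s (y0 + t • z)) * h1 (B (y0 + t • z)) =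
      p * (h1 (A (y0 + t • z)) * h2 (B (y0 + t • z)) -
      h2 (A (y0 + t • z)) * h1 (B (y0 + t • z))) := by
    have hn : ∀ t : ℂ, ‖h1 (A (y0 + t • z)) * h2 (B (y0 + t • z)) -
        h2 (A (y0 + t • z)) * h1 (B (y0 + t • z))‖ =
        ‖h1 (C' s (y0 + t • z)) * h2 (B (y0 + t • z)) -
        h2 (C' s (y0 + t • z)) * h1 (B (y0 + t • z))‖ := by
      intro t
      set y := y0 + t • z
      obtain ⟨a, b, ha, hb, hc⟩ := h y (h2 (B y) • h1 - h1 (B y) • h2)
      have hb0 : b = 0 := by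
        rw [← norm_eq_zero, ← hb]
        simp [mul_comm]
      have := hc s
      rw [hb0, mul_zero, add_zero, ← ha] at this
      simp only [sub_apply, smul_apply, smul_eq_mul] at this
      rw [mul_comm (h1 (A y)), mul_comm (h2 (A y)), mul_comm (h1 (C' s y)), mul_comm (h2 (C' s y))]
      exact this.symm
    obtain ⟨c, -, hc⟩ := poly_norm_eq
      (lin (h1 (A y0)) (h1 (A z)) * lin (h2 (B y0)) (h2 (B z)) -
        lin (h2 (A y0)) (h2 (A z)) * lin (h1 (B y0)) (h1 (B z)))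
      (lin (h1 (C' s y0)) (h1 (C' s z)) * lin (h2 (B y0)) (h2 (B z)) -
        lin (h2 (C' s y0)) (h2 (C' s z)) * lin (h1 (B y0)) (h1 (B z)))
      (fun t => by
        simp only [eval_sub, eval_mul, lin_eval]
        simpa using hn t)
    have hev : ∀ t : ℂ, h1 (C' s (y0 + t • z)) * h2 (B (y0 + t • z)) -
      h2 (C' s (y0 + t • z)) * h1 (B (y0 + t • z)) =
      c * (h1 (A (y0 + t • z)) * h2 (B (y0 + t • z)) -
      h2 (A (y0 + t • z)) * h1 (B (y0 + t • z))) := by
      intro t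
      have := congrArg (eval t) hc
      simp only [eval_sub, eval_mul, lin_eval, eval_C] at this
      simpa using this
    have hcp : c = p := by
      have := hev 0
      rw [zero_smul, add_zero, a1, b1, a2, b2, hps] at this
      simp only [map_add, map_smul, a1, b1, a2, b2, smul_eq_mul] at this
      linear_combination -this
    rw [← hcp]
    exact hev
  have key2 : ∀ t : ℂ, h1 (C' s (y0 + t • z)) * h2 (A (y0 + t • z)) -
      h2 (C' s (y0 + t • z)) * h1 (A (y0 + t • z)) =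
      (p * k s) * (h1 (B (y0 + t • z)) * h2 (A (y0 + t • z)) -
      h2 (B (y0 + t • z)) * h1 (A (y0 + t • z))) := by
    have hn : ∀ t : ℂ, ‖s * (h1 (B (y0 + t • z)) * h2 (A (y0 + t • z)) -
        h2 (B (y0 + t • z)) * h1 (A (y0 + t • z)))‖ =
        ‖h1 (C' s (y0 + t • z)) * h2 (A (y0 + t • z)) -
        h2 (C' s (y0 + t • z)) * h1 (A (y0 + t • z))‖ := by
      intro t
      set y := y0 + t • z
      obtain ⟨a, b, ha, hb, hc⟩ := h y (h2 (A y) • h1 - h1 (A y) • h2)
      have ha0 : a = 0 := by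
        rw [← norm_eq_zero, ← ha]
        simp [mul_comm]
      have := hc s
      rw [ha0, zero_add, norm_mul, ← hb] at this
      simp only [sub_apply, smul_apply, smul_eq_mul] at this
      rw [norm_mul, mul_comm (h1 (B y)), mul_comm (h2 (B y)), mul_comm (h1 (C' s y)),
        mul_comm (h2 (C' s y))]
      exact this.symm
    obtain ⟨c, -, hc⟩ := poly_norm_eq
      (C s * (lin (h1 (B y0)) (h1 (B z)) * lin (h2 (A y0)) (h2 (A z)) -
        lin (h2 (B y0)) (h2 (B z)) * lin (h1 (A y0)) (h1 (A z))))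
      (lin (h1 (C' s y0)) (h1 (C' s z)) * lin (h2 (A y0)) (h2 (A z)) -
        lin (h2 (C' s y0)) (h2 (C' s z)) * lin (h1 (A y0)) (h1 (A z)))
      (fun t => by
        simp only [eval_sub, eval_mul, lin_eval, eval_C]
        simpa using hn t)
    have hev : ∀ t : ℂ, h1 (C' s (y0 + t • z)) * h2 (A (y0 + t • z)) -
      h2 (C' s (y0 + t • z)) * h1 (A (y0 + t • z)) =
      (c * s) * (h1 (B (y0 + t • z)) * h2 (A (y0 + t • z)) -
      h2 (B (y0 + t • z)) * h1 (A (y0 + t • z))) := by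
      intro t
      have := congrArg (eval t) hc
      simp only [eval_sub, eval_mul, lin_eval, eval_C] at this
      rw [mul_assoc]
      simpa using this
    have hcp : c * s = p * k s := by
      have := hev 0
      rw [zero_smul, add_zero, a1, b1, a2, b2, hps] at this
      simp only [map_add, map_smul, a1, b1, a2, b2, smul_eq_mul] at this
      linear_combination this
    rw [← hcp]
    exact hev
  -- choice of `t`
  have hD : Continuous fun t : ℂ => h1 (A (y0 + t • z)) * h2 (B (y0 + t • z)) -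
      h2 (A (y0 + t • z)) * h1 (B (y0 + t • z)) := by fun_prop
  have hD0 : (fun t : ℂ => h1 (A (y0 + t • z)) * h2 (B (y0 + t • z)) -
      h2 (A (y0 + t • z)) * h1 (B (y0 + t • z))) 0 ≠ 0 := by
    simp [a1, b1, a2, b2]
  have hev := hD.continuousAt.eventually_ne hD0
  obtain ⟨t, ht, htne⟩ := ((hev.filter_mono nhdsWithin_le_nhds).and
    (self_mem_nhdsWithin : ∀ᶠ t : ℂ in nhdsWithin 0 {0}ᶜ, t ∈ ({0}ᶜ : Set ℂ))).exists
  have htne' : t ≠ 0 := htne
  set y := y0 + t • z with hy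
  have hli : LinearIndependent ℂ ![A y, B y] := by
    rw [LinearIndependent.pair_iff]
    intro α β hαβ
    have e1 : α * h1 (A y) + β * h1 (B y) = 0 := by
      have := congrArg h1 hαβ
      simpa using this
    have e2 : α * h2 (A y) + β * h2 (B y) = 0 := by
      have := congrArg h2 hαβ
      simpa using this
    constructor
    · have : α * (h1 (A y) * h2 (B y) - h2 (A y) * h1 (B y)) = 0 := by
        linear_combination h2 (B y) * e1 - h1 (B y) * e2
      exact (mul_eq_zero.1 this).resolve_right ht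
    · have : β * (h1 (A y) * h2 (B y) - h2 (A y) * h1 (B y)) = 0 := by
        linear_combination h1 (A y) * e2 - h2 (A y) * e1
      exact (mul_eq_zero.1 this).resolve_right ht
  obtain ⟨k', -, hk'⟩ := point h hli
  obtain ⟨p', -, hp'⟩ := hk' s
  have hp1 : p' = p := by
    have := key1 t
    rw [← hy, hp'] at this
    simp only [map_add, map_smul, smul_eq_mul] at this
    have h3 : (p' - p) * (h1 (A y) * h2 (B y) - h2 (A y) * h1 (B y)) = 0 := by
      linear_combination this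
    exact sub_eq_zero.1 ((mul_eq_zero.1 h3).resolve_right ht)
  have hp2 : p' * k' s = p * k s := by
    have := key2 t
    rw [← hy, hp'] at this
    simp only [map_add, map_smul, smul_eq_mul] at this
    have h3 : (p' * k' s - p * k s) * (h1 (A y) * h2 (B y) - h2 (A y) * h1 (B y)) = 0 := by
      linear_combination -this
    exact sub_eq_zero.1 ((mul_eq_zero.1 h3).resolve_right ht)
  have hy' : C' s y = p • (A y + k s • B y) := by
    rw [hp', smul_add, smul_smul, hp2, hp1, smul_add, smul_smul]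
  have hz : z = t⁻¹ • (y - y0) := by
    rw [hy, add_sub_cancel_left, smul_smul, inv_mul_cancel₀ htne', one_smul]
  rw [hz]
  simp only [map_smul, map_sub, hy', hps, smul_apply, add_apply]

end ab

end PR
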